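import Pool.Agent.Helper1.RK.StA

/-!
# Project RK, module DGR: Riemann-Hurwitz for rational functions
-/

set_option autoImplicit false

namespace Pool.Agent.Helper16.RK

open Polynomial Pool.Agent.Helper1.RK

theorem dt_poly {L : Type} [Field L] {Dt : Derivation ℤ (RatFunc L) (RatFunc L)}
    (hD : Over 0 1 Dt) (P : L[X]) :
    Dt (algebraMap L[X] (RatFunc L) P) = algebraMap L[X] (RatFunc L) (derivative P) := by
  induction P using Polynomial.induction_on with
  | C a =>
    rw [RatFunc.algebraMap_C, hD.1, derivative_C, map_zero]
    exact map_zero _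
  | add p q hp hq => rw [map_add, map_add, hp, hq, derivative_add, map_add]
  | monomial n a h =>
    have e1 : algebraMap L[X] (RatFunc L) (C a * X ^ (n + 1)) =
        algebraMap L[X] (RatFunc L) (C a * X ^ n) * RatFunc.X := by
      rw [pow_succ, ← mul_assoc, map_mul _ (C a * X ^ n) X, RatFunc.algebraMap_X]
    have e2 : algebraMap L[X] (RatFunc L) (derivative (C a * X ^ (n + 1))) =
        algebraMap L[X] (RatFunc L) (derivative (C a * X ^ n)) * RatFunc.X +
          algebraMap L[X] (RatFunc L) (C a * X ^ n) := by
      rw [pow_succ, ← mul_assoc, derivative_mul, derivative_X, mul_one, map_add,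
        map_mul _ (derivative (C a * X ^ n)) X, RatFunc.algebraMap_X]
    rw [e1, e2, Derivation.leibniz, h, hD.2, smul_eq_mul, smul_eq_mul, mul_one]
    ring

/-- the numerator of the derivative -/
noncomputable def Wr {L : Type} [Field L] (a b : L[X]) : L[X] :=
  derivative a * b - a * derivative b

theorem natDegree_Wr {L : Type} [Field L] (a b : L[X]) (h : Wr a b ≠ 0) :
    (Wr a b).natDegree + 2 ≤ 2 * max a.natDegree b.natDegree := by
  have hpos : 1 ≤ a.natDegree + b.natDegree := by
    by_contra hlt
    have h1 : a.natDegree = 0 := by omega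
    have h2 : b.natDegree = 0 := by omega
    apply h
    unfold Wr
    rw [derivative_of_natDegree_zero h1, derivative_of_natDegree_zero h2, zero_mul, mul_zero,
      sub_zero]
  have h1 : (derivative a * b).natDegree + 1 ≤ a.natDegree + b.natDegree := by
    by_cases ha : a.natDegree = 0
    · rw [derivative_of_natDegree_zero ha, zero_mul, natDegree_zero]
      omega
    · have h2 := natDegree_derivative_le a
      have h3 := natDegree_mul_le (p := derivative a) (q := b)
      omega
  have h2 : (a * derivative b).natDegree + 1 ≤ a.natDegree + b.natDegree := by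
    by_cases hb : b.natDegree = 0
    · rw [derivative_of_natDegree_zero hb, mul_zero, natDegree_zero]
      omega
    · have h3 := natDegree_derivative_le b
      have h4 := natDegree_mul_le (p := a) (q := derivative b)
      omega
  have h3 : (Wr a b).natDegree + 1 ≤ a.natDegree + b.natDegree := by
    have h4 := natDegree_sub_le (derivative a * b) (a * derivative b)
    have h5 : (Wr a b).natDegree ≤
      max (derivative a * b).natDegree (a * derivative b).natDegree := h4
    omega
  by_cases hab : a.natDegree = b.natDegree
  · obtain ⟨m, hm⟩ : ∃ m, a.natDegree = m + 1 := ⟨a.natDegree - 1, by omega⟩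
    have hm' : b.natDegree = m + 1 := by omega
    have h4 : (Wr a b).natDegree ≠ m + (m + 1) := by
      intro h5
      have h6 : (Wr a b).coeff (m + (m + 1)) = 0 := by
        unfold Wr
        rw [coeff_sub]
        have h7 := natDegree_derivative_le a
        have h8 := natDegree_derivative_le b
        rw [coeff_mul_add_eq_of_natDegree_le (df := m) (dg := m + 1) (f := derivative a) (g := b)
          (by omega) (by omega), add_comm m (m + 1),
          coeff_mul_add_eq_of_natDegree_le (df := m + 1) (dg := m) (f := a) (g := derivative b)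
          (by omega) (by omega), coeff_derivative, coeff_derivative]
        ring
      rw [← h5, coeff_natDegree] at h6
      exact h (leadingCoeff_eq_zero.1 h6)
    omega
  · omega

theorem sum_rootMult {L : Type} [Field L] (W : L[X]) (B : Finset L) :
    ∑ p ∈ B, W.rootMultiplicity p ≤ W.natDegree := by
  classical
  calc ∑ p ∈ B, W.rootMultiplicity p = ∑ p ∈ B, W.roots.count p :=
        Finset.sum_congr rfl fun p _ => (count_roots W).symm
    _ ≤ ∑ p ∈ B ∪ W.roots.toFinset, W.roots.count p :=
        Finset.sum_le_sum_of_subset Finset.subset_union_left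
    _ = Multiset.card W.roots := by
        apply Multiset.sum_count_eq_card
        intro p hp
        exact Finset.mem_union_right _ (Multiset.mem_toFinset.2 hp)
    _ ≤ W.natDegree := card_roots' W

theorem pDGR (h1 : StORD) (_h2 : StREG) (h3 : StDER) : StDGR := by
  intro L _ _ Dt hD s B hs hB
  have hb : s.denom ≠ 0 := s.denom_ne_zero
  have hinj := RatFunc.algebraMap_injective L
  have hb' : algebraMap L[X] (RatFunc L) s.denom ≠ 0 := (map_ne_zero_iff _ hinj).2 hb
  have e1 : s * algebraMap L[X] (RatFunc L) s.denom = algebraMap L[X] (RatFunc L) s.num :=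
    ((div_eq_iff hb').1 (RatFunc.num_div_denom s)).symm
  have e2 := congrArg Dt e1
  rw [Derivation.leibniz, dt_poly hD, dt_poly hD, smul_eq_mul, smul_eq_mul] at e2
  have e3 : Dt s * algebraMap L[X] (RatFunc L) (s.denom ^ 2) =
      algebraMap L[X] (RatFunc L) (Wr s.num s.denom) := by
    unfold Wr
    rw [map_sub, map_mul, map_mul, map_pow]
    linear_combination algebraMap L[X] (RatFunc L) s.denom * e2 -
      algebraMap L[X] (RatFunc L) (derivative s.denom) * e1
  have hW : Wr s.num s.denom ≠ 0 := by
    intro h0
    rw [h0, map_zero] at e3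
    apply hs
    rw [← (h3 L).2.2.2 Dt hD s]
    rcases mul_eq_zero.1 e3 with h4 | h4
    · exact h4
    · exact absurd h4 ((map_ne_zero_iff _ hinj).2 (pow_ne_zero 2 hb))
  have e4 : Dt s = algebraMap L[X] (RatFunc L) (Wr s.num s.denom) /
      algebraMap L[X] (RatFunc L) (s.denom ^ 2) := by
    rw [eq_div_iff ((map_ne_zero_iff _ hinj).2 (pow_ne_zero 2 hb))]
    exact e3
  have e5 : ∀ p ∈ B, ord p (Dt s) = ((Wr s.num s.denom).rootMultiplicity p : ℤ) := by
    intro p hp
    have h4 : (s.denom ^ 2).rootMultiplicity p = 0 := by
      apply rootMultiplicity_eq_zero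
      intro h5
      rw [IsRoot.def, eval_pow] at h5
      exact hB p hp (pow_eq_zero_iff two_ne_zero |>.1 h5)
    rw [e4, (h1 L p).1 _ _ hW (pow_ne_zero 2 hb), h4, Nat.cast_zero, sub_zero]
  rw [Finset.sum_congr rfl e5, ← Nat.cast_sum]
  have h6 := sum_rootMult (Wr s.num s.denom) B
  have h7 := natDegree_Wr _ _ hW
  unfold dg
  omega

end Pool.Agent.Helper16.RK
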