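import Pool.Agent.Helper1.RK.StC

/-!
# Project RK, module DIV: divisibility of degrees
-/

set_option autoImplicit false

namespace Pool.Agent.Helper16.RK

open Polynomial Pool.Agent.Helper1.RK

theorem pDIV (h1 : StREG) (h2 : StDER) (h3 : StIOT) (h4 : StTRN) (h5 : StDGM) : StDIV := by
  intro L _ _ _ r dl lam u D hcfg j φj φk hj ψ hgen hφ hψ
  obtain ⟨g, hg⟩ := hgen.top (φk (ψ RatFunc.X)) (fun l _ => hψ l)
  obtain ⟨hd1, hd2, hd3, hd4⟩ := h5 L
  have e1 : dg (ψ RatFunc.X) = 1 := (hd3 (ψ : RatFunc L →ₐ[L] RatFunc L)).2 ψ.surjective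
  have e2 := hd2 φk (ψ RatFunc.X)
  rw [e1, one_mul] at e2
  have e3 := hd2 φj g
  rw [hg, e2] at e3
  refine ⟨Dvd.intro_left _ e3.symm, ?_⟩
  intro heq
  have hX : dg (φj RatFunc.X) ≠ 0 := by
    intro h0
    have h6 := ((h3 L).2.2.2.2.2 φj).2 RatFunc.X
    have h7 : Cst (RatFunc.X : RatFunc L) := h6.1 ((hd1 _).1 h0)
    have h8 := (hd1 _).2 h7
    unfold dg at h8
    rw [RatFunc.num_X, RatFunc.denom_X, natDegree_X] at h8
    simp at h8
  have hg1 : dg g = 1 := by
    rw [← heq] at e3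
    have h6 : 1 * dg (φj RatFunc.X) = dg g * dg (φj RatFunc.X) := by rw [one_mul]; exact e3
    exact (Nat.eq_of_mul_eq_mul_right (Nat.pos_of_ne_zero hX) h6).symm
  obtain ⟨a, b, c, e, hdet, hgE⟩ := hd4 g hg1
  obtain ⟨E, hE⟩ := (h2 L).1 (dl j) hj
  have hover : Over (dl j) (D j RatFunc.X) (D j) := ⟨hcfg.lift j, rfl⟩
  have hEg : E g = 0 := by
    have h6 := (h4 L (dl j)).1 φj (D j RatFunc.X) hj (D j) E hover hE hφ.symm g
    rw [hg, hψ j] at h6
    exact (map_eq_zero φj).1 h6.symm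
  -- quotient rule
  have hM : (RatFunc.C c * RatFunc.X + RatFunc.C e : RatFunc L) ≠ 0 := by
    intro h0
    have h6 : algebraMap L[X] (RatFunc L) (C c * X + C e) = 0 := by
      rw [map_add, map_mul, RatFunc.algebraMap_C, RatFunc.algebraMap_C, RatFunc.algebraMap_X]
      exact h0
    have h7 : (C c * X + C e : L[X]) = 0 :=
      (map_eq_zero_iff _ (RatFunc.algebraMap_injective L)).1 h6
    have h8 := congrArg (fun p : L[X] => p.coeff 1) h7
    have h9 := congrArg (fun p : L[X] => p.coeff 0) h7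
    simp at h8 h9
    apply hdet
    rw [h8, h9]
    ring
  have e4 : g * (RatFunc.C c * RatFunc.X + RatFunc.C e) = RatFunc.C a * RatFunc.X + RatFunc.C b := by
    rw [hgE, div_mul_cancel₀ _ hM]
  have hlin : ∀ x y : L, E (RatFunc.C x * RatFunc.X + RatFunc.C y) =
      RatFunc.C x * hj + RatFunc.C (dl j x) * RatFunc.X + RatFunc.C (dl j y) := by
    intro x y
    rw [map_add, Derivation.leibniz, hE.1, hE.1, hE.2, smul_eq_mul, smul_eq_mul]
    ring
  have e5 := congrArg E e4
  rw [Derivation.leibniz, hEg, hlin, hlin, smul_eq_mul, smul_zero, add_zero] at e5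
  have e6 : hj * RatFunc.C (b * c - a * e) = algebraMap L[X] (RatFunc L)
      ((C c * X + C e) * (C (dl j a) * X + C (dl j b)) -
        (C a * X + C b) * (C (dl j c) * X + C (dl j e))) := by
    simp only [map_add, map_sub, map_mul, RatFunc.algebraMap_C, RatFunc.algebraMap_X]
    linear_combination (RatFunc.C c * RatFunc.X + RatFunc.C e) * e5 -
      (RatFunc.C c * hj + RatFunc.C (dl j c) * RatFunc.X + RatFunc.C (dl j e)) * e4
  have hδ : (b * c - a * e : L) ≠ 0 := by
    intro h0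
    apply hdet
    linear_combination -h0
  intro τ
  have e7 : hj = algebraMap L[X] (RatFunc L)
      ((C c * X + C e) * (C (dl j a) * X + C (dl j b)) -
        (C a * X + C b) * (C (dl j c) * X + C (dl j e))) /
      algebraMap L[X] (RatFunc L) (C (b * c - a * e)) := by
    rw [RatFunc.algebraMap_C, eq_div_iff]
    · exact e6
    · exact (map_ne_zero (RatFunc.C : L →+* RatFunc L)).2 hδ
  rw [e7]
  refine ((h1 L τ).1 _ _ ?_).1
  rw [eval_C]
  exact hδ

end Pool.Agent.Helper16.RK
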