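import Pool.Agent.Helper43.RK.StI

/-!
# Project RK, module ICO: coincidence of two triangles
-/

set_option autoImplicit false

namespace Pool.Agent.Helper16.RK

open Pool.Agent.Helper43.RK

/-- ICO -/
theorem hICO : StICO := by
  intro hIRU Λ _ G _ k P v l r v' r' e e' h1 h2
  obtain ⟨hZ, hZa, -, -, -, -⟩ := hIRU Λ G k P
  unfold PP.Tri at h1 h2
  rw [P.pneg] at h2
  have h3 : (P.p l)⁻¹ = P.a * P.p r * P.Z ^ e * P.a⁻¹ * (P.p v)⁻¹ * P.a⁻¹ := by
    have h : (P.p l)⁻¹ * (P.a * P.p v * P.a) = P.a * P.p r * P.Z ^ e := by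
      rw [h1]
      group
    calc (P.p l)⁻¹ = (P.p l)⁻¹ * (P.a * P.p v * P.a) * P.a⁻¹ * (P.p v)⁻¹ * P.a⁻¹ := by group
      _ = P.a * P.p r * P.Z ^ e * P.a⁻¹ * (P.p v)⁻¹ * P.a⁻¹ := by rw [h]
  rw [h3] at h2
  have h4 : P.a * (P.Z ^ (-e) * P.p (v' - r)) * P.a = P.p (r' - v) * P.Z ^ e' := by
    have e1 : P.p (v' - r) = (P.p r)⁻¹ * P.p v' := by
      rw [← P.pneg, ← P.add]
      congr 1
      ring
    have e2 : P.p (r' - v) = (P.p v)⁻¹ * P.p r' := by
      rw [← P.pneg, ← P.add]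
      congr 1
      ring
    rw [e1, e2]
    calc P.a * (P.Z ^ (-e) * ((P.p r)⁻¹ * P.p v')) * P.a
        = P.a * P.Z ^ (-e) * (P.p r)⁻¹ * P.a⁻¹ * (P.a * P.p v' * P.a) := by group
      _ = (P.p v)⁻¹ * P.p r' * P.Z ^ e' := by
        rw [h2]
        group
  rw [hZ (-e) (v' - r)] at h4
  have e3 : P.up ((k - 1) * -e) * (v' - r) = (v' - r) * P.up (-((k - 1) * e)) := by
    rw [mul_comm, mul_neg]
  rw [e3] at h4
  have e4 : P.a * (P.p ((v' - r) * P.up (-((k - 1) * e))) * P.Z ^ (-e)) * P.a =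
      P.a * P.p ((v' - r) * P.up (-((k - 1) * e))) * P.a * P.Z ^ (k * -e) := by
    calc P.a * (P.p ((v' - r) * P.up (-((k - 1) * e))) * P.Z ^ (-e)) * P.a
        = P.a * P.p ((v' - r) * P.up (-((k - 1) * e))) * (P.Z ^ (-e) * P.a) := by
          simp only [mul_assoc]
      _ = P.a * P.p ((v' - r) * P.up (-((k - 1) * e))) * (P.a * P.Z ^ (k * -e)) := by rw [hZa]
      _ = P.a * P.p ((v' - r) * P.up (-((k - 1) * e))) * P.a * P.Z ^ (k * -e) := by
          simp only [mul_assoc]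
  rw [e4] at h4
  calc P.a * P.p ((v' - r) * P.up (-((k - 1) * e))) * P.a
      = P.a * P.p ((v' - r) * P.up (-((k - 1) * e))) * P.a * P.Z ^ (k * -e) * P.Z ^ (k * e) := by
        rw [mul_assoc _ (P.Z ^ (k * -e)), ← zpow_add]
        have e5 : k * -e + k * e = 0 := by ring
        rw [e5, zpow_zero, mul_one]
    _ = P.p (r' - v) * P.Z ^ (e' + k * e) := by
        rw [h4, mul_assoc, ← zpow_add]

end Pool.Agent.Helper16.RK
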